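import Mathlib
import Pool.Agent.H.MP_6f2e8a_an.B

namespace Pool.Agent.Results.MP_6f2e8a_an.No

open Complex

noncomputable def nrm {n : ℕ} (k : Fin n → ℤ) : ℝ := Real.sqrt (∑ i, (k i : ℝ) ^ 2)

noncomputable def fa {n : ℕ} (P : MvPolynomial (Fin n) ℂ) (a : Fin n → ℝ) (s : ℂ) : ℂ :=
  ∑' k : {k : Fin n → ℤ // k ≠ 0}, MvPolynomial.eval (fun i => (k.1 i : ℂ)) P *
    ((nrm k.1 : ℝ) : ℂ) ^ (-s) * cexp (2 * Real.pi * I * ((∑ i, (k.1 i : ℝ) * a i : ℝ) : ℂ))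

def Rapid {q n : ℕ} (b : (Fin q → Fin n → ℤ) → ℂ) : Prop :=
  ∀ m : Fin q → Fin n → ℕ, ∃ C : ℝ, ∀ l, (∏ i, ∏ j, |(l i j : ℝ)| ^ m i j) * ‖b l‖ ≤ C

def PropH {n : ℕ} (Θ : Matrix (Fin n) (Fin n) ℝ) : Prop :=
  ∀ q : ℕ, 1 ≤ q → ∀ (d : ℕ) (P : MvPolynomial (Fin n) ℂ), P.IsHomogeneous d →
    ∀ b : (Fin q → Fin n → ℤ) → ℂ, Rapid b → ∀ ε : Fin q → ℤ, (∀ i, ε i ∈ ({-1, 0, 1} : Set ℤ)) →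
      ∃ G : ℂ → ℂ, Differentiable ℂ G ∧ ∀ s : ℂ, (n : ℝ) + d < s.re →
        HasSum (fun l : {l : Fin q → Fin n → ℤ // ∑ i, ε i • l i ≠ 0} =>
          b l.1 * fa P (Θ.mulVec fun j => (((∑ i, ε i • l.1 i) j : ℤ) : ℝ)) s) (G s)

def BadVec {n : ℕ} (a : Fin n → ℝ) : Prop :=
  ∃ δ : ℝ, 0 < δ ∧ ∃ c : ℝ, 0 < c ∧ ∀ v : Fin n → ℤ, v ≠ 0 → ∀ m : ℤ,
    c * nrm v ^ (-δ) ≤ |∑ i, (v i : ℝ) * a i - m|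

def BadMat {n : ℕ} (Θ : Matrix (Fin n) (Fin n) ℝ) : Prop :=
  ∃ u : Fin n → ℤ, BadVec (Θ.transpose.mulVec fun j => (u j : ℝ))

theorem result : ∃ (n : ℕ) (Θ : Matrix (Fin n) (Fin n) ℝ), 1 ≤ n ∧ ¬ BadMat Θ ∧ PropH Θ :=
  Pool.Agent.H.MP_6f2e8a_an.main

end Pool.Agent.Results.MP_6f2e8a_an.No
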